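import Pool.Agent.H15.MC.Mi
import Pool.Graph.R_pool_sql_team_seeded_ab47071d.Results.MP_aaa0df_nt.EquidistributionAlmostAll

/-! Endless chains of primes `p` for which the small primes are equidistributed in `ℚ(√-p)`. -/

set_option autoImplicit false

namespace Pool.Agent.H15.SP
open Finset Filter
open Pool.Agent.TH349.EQ (IsNFD splitCount inertCount)
open Pool.Agent.Results.MP_aaa0df_nt.EquidistributionAlmostAll (thr N primeCount)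

/-- the discriminant of `ℚ(√-p)`, for a prime `p` -/
def disc (p : ℕ) : ℤ := if p % 4 = 3 then -(p : ℤ) else -(4 * (p : ℤ))

lemma disc_fund {p : ℕ} (hp : p.Prime) : IsNFD (disc p) := by
  have hsq : Squarefree (-(p : ℤ)) := by
    rw [← Int.squarefree_natAbs]
    simpa using hp.squarefree
  have hpos := hp.pos
  unfold disc IsNFD
  split_ifs with h
  · refine ⟨by omega, Or.inl ⟨by omega, hsq⟩⟩
  · refine ⟨by omega, Or.inr ⟨-(p : ℤ), by ring, ?_, hsq⟩⟩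
    rcases hp.eq_two_or_odd with h2 | h2
    · left; subst h2; norm_num
    · right; omega

lemma disc_inj : Set.InjOn disc {p : ℕ | p.Prime} := by
  intro p hp q hq h
  unfold disc at h
  split_ifs at h with h1 h2 h2 <;> omega

/-- few exceptional discriminants give few exceptional primes -/
lemma sparse_of_power (Bad : ℤ → Prop) (K θ : ℝ) (hK : 0 < K) (hθ0 : 0 ≤ θ) (hθ : θ < 1)
    (h : ∀ X : ℕ, 1 ≤ X → (Set.ncard {d : ℤ | IsNFD d ∧ |d| ≤ (X : ℤ) ∧ Bad d} : ℝ) ≤ K * (X : ℝ) ^ θ) (k : ℕ) :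
    ∃ x₁ : ℕ, ∀ M : ℕ, ((({p : ℕ | x₁ ≤ p ∧ p.Prime ∧ Bad (disc p)} ∩ Set.Ico M (2 * M)).ncard : ℕ) : ℝ) ≤
      M / Real.log M ^ k := by
  have h1 := (isLittleO_log_rpow_rpow_atTop (k : ℝ) (show (0 : ℝ) < 1 - θ by linarith)).def
    (show (0 : ℝ) < 1 / (8 * K) by positivity)
  have h2 := tendsto_natCast_atTop_atTop (R := ℝ) |>.eventually (h1.and (eventually_ge_atTop (3 : ℝ)))
  obtain ⟨M₁, hM₁⟩ := eventually_atTop.1 h2
  refine ⟨2 * M₁, ?_⟩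
  intro M
  by_cases hM : M < M₁
  · have he : ({p : ℕ | 2 * M₁ ≤ p ∧ p.Prime ∧ Bad (disc p)} ∩ Set.Ico M (2 * M)) = ∅ := by
      ext p
      simp only [Set.mem_inter_iff, Set.mem_ofPred_eq, Set.mem_Ico, Set.mem_empty_iff_false, iff_false]
      rintro ⟨⟨h3, _⟩, _, h4⟩
      omega
    rw [he, Set.ncard_empty, Nat.cast_zero]
    exact div_nonneg (Nat.cast_nonneg _) (pow_nonneg (Real.log_natCast_nonneg _) _)
  · obtain ⟨h3, h4⟩ := hM₁ M (not_lt.1 hM)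
    have hMpos : (0 : ℝ) < M := by linarith
    have hL : 0 < Real.log M := Real.log_pos (by linarith)
    rw [Real.rpow_natCast, Real.norm_of_nonneg (by positivity), Real.norm_of_nonneg (by positivity)] at h3
    have hM1 : 1 ≤ 8 * M := by
      have : (1 : ℝ) ≤ M := by linarith
      have : 1 ≤ M := by exact_mod_cast this
      omega
    have h5 := h (8 * M) hM1
    have hfin : {d : ℤ | IsNFD d ∧ |d| ≤ ((8 * M : ℕ) : ℤ) ∧ Bad d}.Finite := by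
      refine (Set.finite_Icc (-((8 * M : ℕ) : ℤ)) ((8 * M : ℕ) : ℤ)).subset ?_
      rintro d ⟨_, hd, _⟩
      exact abs_le.1 hd
    have h6 : ({p : ℕ | 2 * M₁ ≤ p ∧ p.Prime ∧ Bad (disc p)} ∩ Set.Ico M (2 * M)).ncard ≤
        {d : ℤ | IsNFD d ∧ |d| ≤ ((8 * M : ℕ) : ℤ) ∧ Bad d}.ncard := by
      refine Set.ncard_le_ncard_of_injOn disc ?_ ?_ hfin
      · rintro p ⟨⟨_, hp, hb⟩, _, h7⟩
        refine ⟨disc_fund hp, ?_, hb⟩
        unfold disc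
        split_ifs <;> · rw [abs_neg, abs_of_nonneg (by positivity)]; push_cast; omega
      · exact disc_inj.mono (fun p hp => hp.1.2.1)
    have h7 : ((({p : ℕ | 2 * M₁ ≤ p ∧ p.Prime ∧ Bad (disc p)} ∩ Set.Ico M (2 * M)).ncard : ℕ) : ℝ) ≤
        K * ((8 * M : ℕ) : ℝ) ^ θ := le_trans (by exact_mod_cast h6) h5
    refine h7.trans ?_
    have h8 : ((8 * M : ℕ) : ℝ) ^ θ ≤ 8 * (M : ℝ) ^ θ := by
      push_cast
      rw [Real.mul_rpow (by norm_num) hMpos.le]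
      have : (8 : ℝ) ^ θ ≤ 8 ^ (1 : ℝ) := Real.rpow_le_rpow_of_exponent_le (by norm_num) hθ.le
      rw [Real.rpow_one] at this
      exact mul_le_mul_of_nonneg_right this (by positivity)
    rw [le_div_iff₀ (by positivity)]
    have h9 : (M : ℝ) ^ θ * (M : ℝ) ^ (1 - θ) = M := by
      rw [← Real.rpow_add hMpos, add_sub_cancel, Real.rpow_one]
    calc K * ((8 * M : ℕ) : ℝ) ^ θ * Real.log M ^ k
        ≤ K * (8 * (M : ℝ) ^ θ) * (1 / (8 * K) * (M : ℝ) ^ (1 - θ)) := by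
          apply mul_le_mul (mul_le_mul_of_nonneg_left h8 hK.le) h3 (by positivity) (by positivity)
      _ = (M : ℝ) ^ θ * (M : ℝ) ^ (1 - θ) := by field_simp
      _ = M := h9

theorem main (k : ℕ) (A B δ δ' : ℝ) (hA : 1 < A) (hδ0 : 0 ≤ δ) (hδ : 1 / A + 2 * δ < 1) (hδ'0 : 0 ≤ δ')
    (hδ' : δ' < 1 / 4) : ∃ (C : ℕ) (x₀ : ℝ),
    ∀ x : ℕ, x₀ ≤ x → ∃ X : Finset ℕ, (X.card : ℝ) ≤ x / Real.log x ^ k ∧
    ∀ m : ℕ, x ≤ m → m < 2 * x → m ∉ X → ∃ (α : ℝ) (a : ℕ → ℕ), (m : ℝ) ≤ α ∧ α < m + 1 ∧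
      (∀ i, (a i).Prime ∧ (a i : ℝ) ≤ Real.log (α * ∏ j ∈ range i, (a j : ℝ)) ^ C) ∧
      ∀ i, (⌊α * ∏ j ∈ range (i + 1), (a j : ℝ)⌋₊).Prime ∧
        ∀ d : ℤ, d = disc ⌊α * ∏ j ∈ range (i + 1), (a j : ℝ)⌋₊ →
          (∀ y : ℝ, Real.log |(d : ℝ)| ^ A ≤ y → y ≤ Real.log |(d : ℝ)| ^ B →
            |(splitCount d y : ℝ) - inertCount d y| ≤ y ^ (1 - δ)) ∧
          |2 * (N d : ℝ) - primeCount (thr d)| ≤ thr d ^ (1 - δ') := by
  obtain ⟨e1, e2⟩ := Pool.Agent.Results.MP_aaa0df_nt.EquidistributionAlmostAll.result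
  obtain ⟨K₁, hK₁, g1⟩ := e1 A B δ ((1 - (1 / A + 2 * δ)) / 2) hA hδ0 (by linarith)
  obtain ⟨K₂, hK₂, g2⟩ := e2 δ' ((1 / 2 - 2 * δ') / 2) hδ'0 (by linarith)
  obtain ⟨θ₁, hθ₁⟩ : ∃ θ₁, θ₁ = 1 / A + 2 * δ + (1 - (1 / A + 2 * δ)) / 2 := ⟨_, rfl⟩
  obtain ⟨θ₂, hθ₂⟩ : ∃ θ₂, θ₂ = 1 / 2 + 2 * δ' + (1 / 2 - 2 * δ') / 2 := ⟨_, rfl⟩
  rw [← hθ₁] at g1
  rw [← hθ₂] at g2
  have hA0 : 0 < 1 / A := by positivity
  obtain ⟨C, x₀, h⟩ := Pool.Agent.H15.MC.mills k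
  obtain ⟨x₁, hx₁⟩ := sparse_of_power (fun d => (∃ y : ℝ, Real.log |(d : ℝ)| ^ A ≤ y ∧ y ≤ Real.log |(d : ℝ)| ^ B ∧
      y ^ (1 - δ) < |(splitCount d y : ℝ) - inertCount d y|) ∨ thr d ^ (1 - δ') < |2 * (N d : ℝ) - primeCount (thr d)|)
    (K₁ + K₂) (max θ₁ θ₂) (by positivity) (le_max_of_le_left (by rw [hθ₁]; linarith))
    (max_lt (by rw [hθ₁]; linarith) (by rw [hθ₂]; linarith)) (by
      intro X hX
      have hX1 : (1 : ℝ) ≤ X := by exact_mod_cast hX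
      have b1 := (g1 X hX).trans (mul_le_mul_of_nonneg_left
        (Real.rpow_le_rpow_of_exponent_le hX1 (le_max_left θ₁ θ₂)) hK₁.le)
      have b2 := (g2 X hX).trans (mul_le_mul_of_nonneg_left
        (Real.rpow_le_rpow_of_exponent_le hX1 (le_max_right θ₁ θ₂)) hK₂.le)
      have hfin : ∀ P : ℤ → Prop, {d : ℤ | IsNFD d ∧ |d| ≤ (X : ℤ) ∧ P d}.Finite := by
        intro P
        refine (Set.finite_Icc (-(X : ℤ)) (X : ℤ)).subset ?_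
        rintro d ⟨_, hd, _⟩
        exact abs_le.1 hd
      have b3 := (Set.ncard_le_ncard (s := {d : ℤ | IsNFD d ∧ |d| ≤ (X : ℤ) ∧ ((∃ y : ℝ, Real.log |(d : ℝ)| ^ A ≤ y ∧
          y ≤ Real.log |(d : ℝ)| ^ B ∧ y ^ (1 - δ) < |(splitCount d y : ℝ) - inertCount d y|) ∨
          thr d ^ (1 - δ') < |2 * (N d : ℝ) - primeCount (thr d)|)})
        (t := {d : ℤ | IsNFD d ∧ |d| ≤ (X : ℤ) ∧ ∃ y : ℝ, Real.log |(d : ℝ)| ^ A ≤ y ∧
          y ≤ Real.log |(d : ℝ)| ^ B ∧ y ^ (1 - δ) < |(splitCount d y : ℝ) - inertCount d y|} ∪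
          {d : ℤ | IsNFD d ∧ |d| ≤ (X : ℤ) ∧ thr d ^ (1 - δ') < |2 * (N d : ℝ) - primeCount (thr d)|}) (by
          rintro d ⟨c1, c2, c3 | c3⟩
          · exact Or.inl ⟨c1, c2, c3⟩
          · exact Or.inr ⟨c1, c2, c3⟩) ((hfin _).union (hfin _))).trans (Set.ncard_union_le _ _)
      have b4 : (Set.ncard {d : ℤ | IsNFD d ∧ |d| ≤ (X : ℤ) ∧ ((∃ y : ℝ, Real.log |(d : ℝ)| ^ A ≤ y ∧
          y ≤ Real.log |(d : ℝ)| ^ B ∧ y ^ (1 - δ) < |(splitCount d y : ℝ) - inertCount d y|) ∨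
          thr d ^ (1 - δ') < |2 * (N d : ℝ) - primeCount (thr d)|)} : ℝ) ≤
          (Set.ncard {d : ℤ | IsNFD d ∧ |d| ≤ (X : ℤ) ∧ ∃ y : ℝ, Real.log |(d : ℝ)| ^ A ≤ y ∧
            y ≤ Real.log |(d : ℝ)| ^ B ∧ y ^ (1 - δ) < |(splitCount d y : ℝ) - inertCount d y|} : ℝ) +
          (Set.ncard {d : ℤ | IsNFD d ∧ |d| ≤ (X : ℤ) ∧
            thr d ^ (1 - δ') < |2 * (N d : ℝ) - primeCount (thr d)|} : ℝ) := by exact_mod_cast b3
      linarith) (k + 7)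
  refine ⟨C, max x₀ x₁, ?_⟩
  intro x hx
  obtain ⟨X, hX1, hX2⟩ := h _ (fun M _ => hx₁ M) x ((le_max_left _ _).trans hx)
  refine ⟨X, hX1, ?_⟩
  intro m h1 h2 h3
  obtain ⟨α, a, h4, h5, h6, h7⟩ := hX2 m h1 h2 h3
  refine ⟨α, a, h4, h5, h6, fun i => ⟨(h7 i).1, ?_⟩⟩
  have hxx : x₁ ≤ x := by
    have : (x₁ : ℝ) ≤ x := (le_max_right _ _).trans hx
    exact_mod_cast this
  have hprod : (1 : ℝ) ≤ ∏ j ∈ range (i + 1), (a j : ℝ) := by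
    have : 1 ≤ ∏ j ∈ range (i + 1), a j := Nat.one_le_iff_ne_zero.2 (prod_ne_zero_iff.2 fun j _ => (h6 j).1.ne_zero)
    exact_mod_cast this
  have hm : m ≤ ⌊α * ∏ j ∈ range (i + 1), (a j : ℝ)⌋₊ := by
    apply Nat.le_floor
    have hm0 : (0 : ℝ) ≤ m := Nat.cast_nonneg _
    nlinarith
  have h8 := (h7 i).2
  have h9 := (h7 i).1
  rintro d rfl
  constructor
  · intro y hy1 hy2
    by_contra hc
    exact h8 ⟨by omega, h9, Or.inl ⟨y, hy1, hy2, not_le.1 hc⟩⟩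
  · by_contra hc
    exact h8 ⟨by omega, h9, Or.inr (not_le.1 hc)⟩

end Pool.Agent.H15.SP
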